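import Mathlib

set_option autoImplicit false

namespace Pool.Agent.H28.KN

open Finset

/-- the vertices of the Kneser graph -/
abbrev KV (p q : ℕ) : Type := {s : Finset (Fin p) // s.card = q}

/-- the Kneser graph -/
def kneser (p q : ℕ) : SimpleGraph (KV p q) :=
  SimpleGraph.fromRel (fun s t : {s : Finset (Fin p) // s.card = q} => Disjoint s.1 t.1)

/-- A spectral point: a nonnegative real function on finite graphs, monotone under
cohomomorphism, additive under disjoint union, multiplicative under the strong product and equal to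
`1` at the one-vertex graph. -/
structure IsSpectralPoint (φ : (V : Type) → [Fintype V] → SimpleGraph V → ℝ) : Prop where
  nonneg : ∀ (V : Type) [Fintype V] (G : SimpleGraph V), 0 ≤ φ V G
  mono : ∀ (V W : Type) [Fintype V] [Fintype W] (G : SimpleGraph V) (H : SimpleGraph W),
    Nonempty (Gᶜ →g Hᶜ) → φ V G ≤ φ W H
  add : ∀ (V W : Type) [Fintype V] [Fintype W] (G : SimpleGraph V) (H : SimpleGraph W),
    φ (V ⊕ W) (SimpleGraph.fromRel (Sum.LiftRel G.Adj H.Adj)) = φ V G + φ W H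
  mul : ∀ (V W : Type) [Fintype V] [Fintype W] (G : SimpleGraph V) (H : SimpleGraph W),
    φ (V × W) (SimpleGraph.fromRel (fun x y : V × W =>
        (x.1 = y.1 ∨ G.Adj x.1 y.1) ∧ (x.2 = y.2 ∨ H.Adj x.2 y.2))) = φ V G * φ W H
  one : φ (Fin 1) (⊥ : SimpleGraph (Fin 1)) = 1

variable {φ : (V : Type) → [Fintype V] → SimpleGraph V → ℝ}

/-- `x` and `y` are distinct and not adjacent -/
def Sep {V : Type} (G : SimpleGraph V) (x y : V) : Prop := x ≠ y ∧ ¬ G.Adj x y

theorem mono_of (h : IsSpectralPoint φ) {V W : Type} [Fintype V] [Fintype W]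
    (G : SimpleGraph V) (H : SimpleGraph W) (f : V → W)
    (hf : ∀ x y, Sep G x y → Sep H (f x) (f y)) : φ V G ≤ φ W H := by
  apply h.mono
  refine ⟨⟨f, ?_⟩⟩
  intro a b hab
  rw [SimpleGraph.compl_adj] at hab ⊢
  exact hf a b hab

theorem lift_bot {V W : Type} (x y : V ⊕ W) :
    ¬ Sum.LiftRel (⊥ : SimpleGraph V).Adj (⊥ : SimpleGraph W).Adj x y := by
  rintro (h | h)
  · exact h
  · exact h

theorem bot_eq (h : IsSpectralPoint φ) (n : ℕ) :
    φ (Fin n) (⊥ : SimpleGraph (Fin n)) = n := by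
  induction n with
  | zero =>
    have h1 := h.add (Fin 0) (Fin 0) ⊥ ⊥
    have h2 : φ (Fin 0 ⊕ Fin 0) (SimpleGraph.fromRel
        (Sum.LiftRel (⊥ : SimpleGraph (Fin 0)).Adj (⊥ : SimpleGraph (Fin 0)).Adj)) ≤
        φ (Fin 0) (⊥ : SimpleGraph (Fin 0)) :=
      mono_of h _ _ (fun x => x.elim id id) (fun x => x.elim (fun i => i.elim0) (fun i => i.elim0))
    have h3 := h.nonneg (Fin 0) ⊥
    have : φ (Fin 0) (⊥ : SimpleGraph (Fin 0)) = 0 := by linarith
    simpa using this
  | succ n ih =>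
    have h1 := h.add (Fin n) (Fin 1) ⊥ ⊥
    have h2 : φ (Fin n ⊕ Fin 1) (SimpleGraph.fromRel
        (Sum.LiftRel (⊥ : SimpleGraph (Fin n)).Adj (⊥ : SimpleGraph (Fin 1)).Adj)) ≤
        φ (Fin (n + 1)) (⊥ : SimpleGraph (Fin (n + 1))) :=
      mono_of h _ _ (fun x => finSumFinEquiv x)
        (fun a b hab => ⟨fun he => hab.1 (finSumFinEquiv.injective he), by simp⟩)
    have h3 : φ (Fin (n + 1)) (⊥ : SimpleGraph (Fin (n + 1))) ≤
        φ (Fin n ⊕ Fin 1) (SimpleGraph.fromRel
        (Sum.LiftRel (⊥ : SimpleGraph (Fin n)).Adj (⊥ : SimpleGraph (Fin 1)).Adj)) := by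
      refine mono_of h _ _ (fun x => finSumFinEquiv.symm x) (fun a b hab => ?_)
      refine ⟨fun he => hab.1 (finSumFinEquiv.symm.injective he), ?_⟩
      rw [SimpleGraph.fromRel_adj]
      rintro ⟨-, h4 | h4⟩
      · exact lift_bot _ _ h4
      · exact lift_bot _ _ h4
    have h4 := le_antisymm h2 h3
    rw [← h4, h1, h.one, ih]
    push_cast
    ring

/-- codes give lower bounds -/
theorem le_of_code (h : IsSpectralPoint φ) (n : ℕ) {V : Type} [Fintype V] (G : SimpleGraph V)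
    (f : Fin n → V) (hf : ∀ i j, i ≠ j → Sep G (f i) (f j)) :
    (n : ℝ) ≤ φ V G := by
  rw [← bot_eq h n]
  exact mono_of h _ _ f (fun i j hij => hf i j hij.1)

/-- colourings of the complement give upper bounds -/
theorem le_of_colour (h : IsSpectralPoint φ) (n : ℕ) {V : Type} [Fintype V] (G : SimpleGraph V)
    (f : V → Fin n) (hf : ∀ x y, Sep G x y → f x ≠ f y) :
    φ V G ≤ n := by
  rw [← bot_eq h n]
  exact mono_of h _ _ f (fun x y hxy => ⟨hf x y hxy, by simp⟩)

/-- powers of a graph -/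
theorem exists_power (h : IsSpectralPoint φ) {V : Type} [Fintype V] (G : SimpleGraph V) (a : ℕ) :
    ∃ (W : Type) (_ : Fintype W) (H : SimpleGraph W) (e : W ≃ (Fin a → V)),
      φ W H = φ V G ^ a ∧ ∀ x y : W, Sep H x y ↔ ∃ k, Sep G (e x k) (e y k) := by
  induction a with
  | zero =>
    refine ⟨Fin 1, inferInstance, ⊥, ⟨fun _ i => i.elim0, fun _ => 0, ?_, ?_⟩, ?_, ?_⟩
    · intro x; exact Subsingleton.elim _ _
    · intro x; exact Subsingleton.elim _ _
    · simpa using h.one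
    · intro x y
      constructor
      · intro hxy; exact (hxy.1 (Subsingleton.elim _ _)).elim
      · rintro ⟨k, -⟩; exact k.elim0
  | succ a ih =>
    obtain ⟨W, _, H, e, h1, h2⟩ := ih
    have h3 := h.mul V W G H
    refine ⟨V × W, inferInstance, SimpleGraph.fromRel (fun x y : V × W =>
        (x.1 = y.1 ∨ G.Adj x.1 y.1) ∧ (x.2 = y.2 ∨ H.Adj x.2 y.2)),
      (Equiv.prodCongr (Equiv.refl V) e).trans (Fin.consEquiv (fun _ => V)), ?_, ?_⟩
    · rw [h3, h1, pow_succ]; ring
    · intro x y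
      have key : Sep (SimpleGraph.fromRel (fun x y : V × W =>
          (x.1 = y.1 ∨ G.Adj x.1 y.1) ∧ (x.2 = y.2 ∨ H.Adj x.2 y.2))) x y ↔
          Sep G x.1 y.1 ∨ Sep H x.2 y.2 := by
        unfold Sep
        rw [SimpleGraph.fromRel_adj, Ne, Prod.ext_iff]
        have e1 : y.1 = x.1 ↔ x.1 = y.1 := eq_comm
        have e2 : y.2 = x.2 ↔ x.2 = y.2 := eq_comm
        rw [e1, e2, G.adj_comm y.1 x.1, H.adj_comm y.2 x.2]
        tauto
      rw [key, h2]
      constructor
      · rintro (h4 | ⟨k, hk⟩)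
        · exact ⟨0, by simpa using h4⟩
        · exact ⟨k.succ, by simpa using hk⟩
      · rintro ⟨k, hk⟩
        rcases Fin.eq_zero_or_eq_succ k with h5 | ⟨j, h5⟩
        · subst h5; left; simpa using hk
        · subst h5; right; exact ⟨j, by simpa using hk⟩

theorem sep_iff {p q : ℕ} (hq : 1 ≤ q) {s t : KV p q} :
    Sep (kneser p q)ᶜ s t ↔ Disjoint s.1 t.1 := by
  unfold Sep
  rw [SimpleGraph.compl_adj, kneser, SimpleGraph.fromRel_adj, disjoint_comm (a := t.1)]
  constructor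
  · intro h; by_contra hcon; exact h.2 ⟨h.1, fun h' => by tauto⟩
  · intro hst
    have hne : s ≠ t := by
      rintro rfl
      rw [disjoint_self] at hst
      have := s.2
      rw [hst] at this
      simp at this
      omega
    exact ⟨hne, fun h' => h'.2 ⟨hne, Or.inl hst⟩⟩

/-- the value at the complement of a Kneser graph -/
noncomputable def F (φ : (V : Type) → [Fintype V] → SimpleGraph V → ℝ) (p q : ℕ) : ℝ :=
  φ (KV p q) (kneser p q)ᶜ

/-- codes in powers of the complement of the Kneser graph -/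
theorem pow_le_of_code (h : IsSpectralPoint φ) {p q : ℕ} (hq : 1 ≤ q) (a n : ℕ)
    (f : Fin n → Fin a → KV p q) (hf : ∀ i j, i ≠ j → ∃ k, Disjoint (f i k).1 (f j k).1) :
    (n : ℝ) ≤ F φ p q ^ a := by
  obtain ⟨W, _, H, e, h1, h2⟩ := exists_power h (kneser p q)ᶜ a
  unfold F
  rw [← h1]
  refine le_of_code h n H (fun i => e.symm (f i)) (fun i j hij => ?_)
  rw [h2]
  obtain ⟨k, hk⟩ := hf i j hij
  exact ⟨k, by simpa [sep_iff hq] using hk⟩

/-- hitting sets for the boxes -/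
theorem pow_le_of_hit (h : IsSpectralPoint φ) {p q : ℕ} (hq : 1 ≤ q) (a n : ℕ)
    (g : Fin n → Fin a → Fin p) (hg : ∀ f : Fin a → KV p q, ∃ i, ∀ k, g i k ∈ (f k).1) :
    F φ p q ^ a ≤ n := by
  obtain ⟨W, _, H, e, h1, h2⟩ := exists_power h (kneser p q)ᶜ a
  unfold F
  rw [← h1]
  choose c hc using hg
  refine le_of_colour h n H (fun x => c (e x)) (fun x y hxy he => ?_)
  rw [h2] at hxy
  obtain ⟨k, hk⟩ := hxy
  rw [sep_iff hq] at hk
  have h3 := hc (e x) k
  have h4 := hc (e y) k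
  rw [← he] at h4
  exact (Finset.disjoint_left.1 hk) h3 h4

/-- superadditivity -/
theorem add_le (h : IsSpectralPoint φ) {q : ℕ} (hq : 1 ≤ q) (p₁ p₂ : ℕ) :
    F φ p₁ q + F φ p₂ q ≤ F φ (p₁ + p₂) q := by
  unfold F
  rw [← h.add]
  refine mono_of h _ _ (fun x => x.elim
    (fun s => (⟨s.1.map (Fin.castAddEmb p₂), by rw [Finset.card_map, s.2]⟩ : KV (p₁ + p₂) q))
    (fun s => ⟨s.1.map (Fin.natAddEmb p₁), by rw [Finset.card_map, s.2]⟩)) ?_
  intro x y hxy
  rw [sep_iff hq]
  rcases x with x | x <;> rcases y with y | y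
  · have h1 : Sep (kneser p₁ q)ᶜ x y := by
      refine ⟨fun he => hxy.1 (by rw [he]), fun ha => hxy.2 ?_⟩
      rw [SimpleGraph.fromRel_adj]
      exact ⟨hxy.1, Or.inl (Sum.LiftRel.inl ha)⟩
    rw [sep_iff hq] at h1
    simpa using h1
  · rw [Finset.disjoint_left]
    intro z hz hz'
    simp only [Sum.elim_inl, Sum.elim_inr, Finset.mem_map] at hz hz'
    obtain ⟨u, -, hu⟩ := hz
    obtain ⟨v, -, hv⟩ := hz'
    rw [← hv] at hu
    have := congrArg Fin.val hu
    simp at this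
    omega
  · rw [Finset.disjoint_left]
    intro z hz hz'
    simp only [Sum.elim_inl, Sum.elim_inr, Finset.mem_map] at hz hz'
    obtain ⟨u, -, hu⟩ := hz
    obtain ⟨v, -, hv⟩ := hz'
    rw [← hv] at hu
    have := congrArg Fin.val hu
    simp at this
    omega
  · have h1 : Sep (kneser p₂ q)ᶜ x y := by
      refine ⟨fun he => hxy.1 (by rw [he]), fun ha => hxy.2 ?_⟩
      rw [SimpleGraph.fromRel_adj]
      exact ⟨hxy.1, Or.inl (Sum.LiftRel.inr ha)⟩
    rw [sep_iff hq] at h1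
    simpa using h1

theorem F_nonneg (h : IsSpectralPoint φ) (p q : ℕ) : 0 ≤ F φ p q := h.nonneg _ _

theorem F_mono (h : IsSpectralPoint φ) {q : ℕ} (hq : 1 ≤ q) {p p' : ℕ} (hp : p ≤ p') :
    F φ p q ≤ F φ p' q := by
  obtain ⟨d, rfl⟩ := Nat.exists_eq_add_of_le hp
  have := add_le h hq p d
  linarith [F_nonneg h d q]

theorem F_self (h : IsSpectralPoint φ) {q : ℕ} (hq : 1 ≤ q) : 1 ≤ F φ q q := by
  have := pow_le_of_code h (p := q) hq 1 1 (fun _ _ => ⟨Finset.univ, by simp⟩)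
    (fun i j hij => (hij (Subsingleton.elim _ _)).elim)
  simpa using this

/-- multiples of one piece -/
theorem mul_le (h : IsSpectralPoint φ) {q : ℕ} (hq : 1 ≤ q) (g p : ℕ) :
    g * F φ p q ≤ F φ (g * p) q := by
  induction g with
  | zero => simpa using F_nonneg h _ _
  | succ g ih =>
    have := add_le h hq (g * p) p
    rw [show (g + 1) * p = g * p + p by ring]
    push_cast
    linarith

end Pool.Agent.H28.KN
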