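import Pool.Agent.H28.KN.A

set_option autoImplicit false

namespace Pool.Agent.H28.KN

open Finset

variable {φ : (V : Type) → [Fintype V] → SimpleGraph V → ℝ}

/-- scaling from `ℤ / P` to `ℤ / p` -/
def scal (p P : ℕ) (x : ℤ) : ℤ := (x * p) / P

theorem scal_shift {p P : ℕ} (hP : 0 < P) (x z : ℤ) : scal p P (x + z * P) = scal p P x + z * p := by
  unfold scal
  rw [show (x + z * P) * (p : ℤ) = x * p + (z * p) * P by ring,
    Int.add_mul_ediv_right _ _ (by positivity)]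

theorem scal_step {p P q Q : ℕ} (hP : 0 < P) (h : q * P ≤ p * Q) {u v : ℤ} (huv : v + Q ≤ u) :
    scal p P v + q ≤ scal p P u := by
  unfold scal
  rw [← Int.add_mul_ediv_right _ _ (show (P : ℤ) ≠ 0 by positivity)]
  apply Int.ediv_le_ediv (by positivity)
  have h1 : (q : ℤ) * P ≤ p * Q := by exact_mod_cast h
  have h2 : (v + Q) * (p : ℤ) ≤ u * p := mul_le_mul_of_nonneg_right huv (by positivity)
  linarith [mul_comm (Q : ℤ) (p : ℤ), add_mul v (Q : ℤ) (p : ℤ)]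

/-- the arc of `q` points which starts at the image of `x` -/
def side (p P q : ℕ) (hp : 0 < p) (x : ℤ) : Finset (Fin p) :=
  (Finset.range q).image (fun s : ℕ => ⟨((scal p P x + (s : ℤ)) % p).toNat, by
    have h1 : (0 : ℤ) < p := by exact_mod_cast hp
    have h2 := Int.emod_lt_of_pos (scal p P x + (s : ℤ)) h1
    have h3 := Int.emod_nonneg (scal p P x + (s : ℤ)) h1.ne'
    omega⟩)

theorem side_card {p P q : ℕ} (hp : 0 < p) (hqp : q ≤ p) (x : ℤ) : (side p P q hp x).card = q := by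
  unfold side
  rw [Finset.card_image_of_injOn, Finset.card_range]
  intro s hs t ht hst
  simp only [Fin.mk.injEq] at hst
  simp only [Finset.coe_range, Set.mem_Iio] at hs ht
  have h1 : (0 : ℤ) < p := by exact_mod_cast hp
  have h3 := Int.emod_nonneg (scal p P x + s) h1.ne'
  have h4 := Int.emod_nonneg (scal p P x + t) h1.ne'
  have h5 : (scal p P x + s) % p = (scal p P x + t) % p := by omega
  have h6 : (p : ℤ) ∣ (s : ℤ) - t := by
    have h7 := Int.sub_emod (scal p P x + s) (scal p P x + t) p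
    rw [h5, sub_self, Int.zero_emod] at h7
    have h8 := Int.dvd_of_emod_eq_zero h7
    have h9 : scal p P x + s - (scal p P x + t) = (s : ℤ) - t := by ring
    rwa [h9] at h8
  have h7 : (s : ℤ) - t = 0 := by
    apply Int.eq_zero_of_abs_lt_dvd h6
    rw [abs_lt]
    constructor <;> omega
  omega

theorem near {p P q Q : ℕ} (hp : 0 < p) (hP : 0 < P) (h : q * P ≤ p * Q) {x y : ℤ}
    (hxy : ¬ Disjoint (side p P q hp x) (side p P q hp y)) :
    ∃ δ : ℤ, |δ| < Q ∧ (P : ℤ) ∣ x - y - δ := by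
  rw [Finset.not_disjoint_iff] at hxy
  obtain ⟨c, h1, h2⟩ := hxy
  unfold side at h1 h2
  rw [Finset.mem_image] at h1 h2
  obtain ⟨s, hs, hsc⟩ := h1
  obtain ⟨t, ht, htc⟩ := h2
  rw [Finset.mem_range] at hs ht
  rw [← htc] at hsc
  simp only [Fin.mk.injEq] at hsc
  have h1 : (0 : ℤ) < p := by exact_mod_cast hp
  have h3 := Int.emod_nonneg (scal p P x + s) h1.ne'
  have h4 := Int.emod_nonneg (scal p P y + t) h1.ne'
  have h5 : (scal p P x + s) % p = (scal p P y + t) % p := by omega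
  have h7 := Int.sub_emod (scal p P x + s) (scal p P y + t) p
  rw [h5, sub_self, Int.zero_emod] at h7
  obtain ⟨z, hz⟩ := Int.dvd_of_emod_eq_zero h7
  have h8 := scal_shift (p := p) hP y z
  have h9 : scal p P x + s = scal p P (y + z * P) + t := by
    rw [h8]; linarith [mul_comm (p : ℤ) z]
  refine ⟨x - (y + z * P), ?_, ⟨z, by ring⟩⟩
  by_contra hcon
  push Not at hcon
  rcases le_abs.1 hcon with h10 | h10
  · have := scal_step (q := q) hP h (u := x) (v := y + z * P) (by linarith)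
    omega
  · have := scal_step (q := q) hP h (u := y + z * P) (v := x) (by linarith)
    omega

theorem digits_bound {Q : ℕ} (hQ : 1 ≤ Q) (n : ℕ) (δ : Fin n → ℤ) (hδ : ∀ i, |δ i| < Q) :
    |∑ i : Fin n, (Q : ℤ) ^ (i : ℕ) * δ i| ≤ (Q : ℤ) ^ n - 1 := by
  induction n with
  | zero => simp
  | succ n ih =>
    rw [Fin.sum_univ_castSucc]
    have h1 := ih (fun i => δ i.castSucc) (fun i => hδ _)
    have h2 : |(Q : ℤ) ^ n * δ (Fin.last n)| ≤ (Q : ℤ) ^ n * (Q - 1) := by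
      rw [abs_mul, abs_of_nonneg (by positivity : (0 : ℤ) ≤ (Q : ℤ) ^ n)]
      exact mul_le_mul_of_nonneg_left (by linarith [hδ (Fin.last n)]) (by positivity)
    refine (abs_add_le _ _).trans ?_
    simp only [Fin.val_castSucc, Fin.val_last]
    have h3 : (Q : ℤ) ^ (n + 1) - 1 = ((Q : ℤ) ^ n - 1) + (Q : ℤ) ^ n * (Q - 1) := by ring
    rw [h3]
    exact add_le_add h1 h2

theorem digits_unique {Q : ℕ} (hQ : 1 ≤ Q) (n : ℕ) (δ : Fin n → ℤ) (hδ : ∀ i, |δ i| < Q) (T : ℤ)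
    (hT : ∑ i : Fin n, (Q : ℤ) ^ (i : ℕ) * δ i = T * (Q : ℤ) ^ n) : T = 0 ∧ ∀ i, δ i = 0 := by
  induction n with
  | zero =>
    simp at hT
    exact ⟨hT.symm, fun i => i.elim0⟩
  | succ n ih =>
    have hQ0 : (Q : ℤ) ≠ 0 := by positivity
    rw [Fin.sum_univ_succ] at hT
    have h1 : ∑ i : Fin n, (Q : ℤ) ^ ((i.succ : Fin (n + 1)) : ℕ) * δ i.succ =
        Q * ∑ i : Fin n, (Q : ℤ) ^ (i : ℕ) * δ i.succ := by
      rw [Finset.mul_sum]
      refine Finset.sum_congr rfl fun i _ => ?_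
      rw [Fin.val_succ, pow_succ]
      ring
    rw [h1] at hT
    simp only [Fin.val_zero, pow_zero, one_mul] at hT
    have h2 : (Q : ℤ) ∣ δ 0 := by
      have h3 : δ 0 = Q * (T * (Q : ℤ) ^ n - ∑ i : Fin n, (Q : ℤ) ^ (i : ℕ) * δ i.succ) := by
        have : T * (Q : ℤ) ^ (n + 1) = Q * (T * (Q : ℤ) ^ n) := by ring
        rw [this] at hT
        linear_combination hT
      exact ⟨_, h3⟩
    have h3 : δ 0 = 0 := Int.eq_zero_of_abs_lt_dvd h2 (hδ 0)
    rw [h3, zero_add] at hT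
    have h4 : ∑ i : Fin n, (Q : ℤ) ^ (i : ℕ) * δ i.succ = T * (Q : ℤ) ^ n := by
      have h5 : (Q : ℤ) * ∑ i : Fin n, (Q : ℤ) ^ (i : ℕ) * δ i.succ = Q * (T * (Q : ℤ) ^ n) := by
        rw [hT]; ring
      exact mul_left_cancel₀ hQ0 h5
    obtain ⟨h5, h6⟩ := ih (fun i => δ i.succ) (fun i => hδ _) h4
    refine ⟨h5, fun i => ?_⟩
    rcases Fin.eq_zero_or_eq_succ i with h7 | ⟨j, h7⟩
    · rw [h7, h3]
    · rw [h7]; exact h6 j

theorem pow_le_of_code' (h : IsSpectralPoint φ) {p q : ℕ} (hq : 1 ≤ q) (a : ℕ) {ι : Type}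
    [Fintype ι] (f : ι → Fin a → KV p q)
    (hf : ∀ i j, (∀ k, ¬ Disjoint (f i k).1 (f j k).1) → i = j) :
    (Fintype.card ι : ℝ) ≤ F φ p q ^ a := by
  refine pow_le_of_code h hq a _ (fun i => f ((Fintype.equivFin ι).symm i)) (fun i j hij => ?_)
  by_contra hcon
  push Not at hcon
  exact hij ((Fintype.equivFin ι).symm.injective (hf _ _ hcon))

/-- the codeword -/
def word {κ b P : ℕ} (Q : ℕ) (w : Fin κ × (Fin b → Fin P)) : Fin (b + 1) → ℤ :=
  Fin.cons ((w.1 : ℤ) * (Q : ℤ) ^ (b + 1) - ∑ i : Fin b, (Q : ℤ) ^ ((i : ℕ) + 1) * (w.2 i : ℤ))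
    (fun i => (w.2 i : ℤ))

theorem word_sum {κ b P : ℕ} (Q : ℕ) (w : Fin κ × (Fin b → Fin P)) :
    ∑ i : Fin (b + 1), (Q : ℤ) ^ (i : ℕ) * word Q w i = (w.1 : ℤ) * (Q : ℤ) ^ (b + 1) := by
  rw [Fin.sum_univ_succ]
  simp [word]

theorem code_bound (h : IsSpectralPoint φ) {p q Q κ b : ℕ} (hq : 1 ≤ q) (hQ : 1 ≤ Q) (hκ : 1 ≤ κ)
    (hp : q * (κ * Q ^ (b + 1) + 1) ≤ p * Q) :
    (κ : ℝ) * ((κ * Q ^ (b + 1) + 1 : ℕ) : ℝ) ^ b ≤ F φ p q ^ (b + 1) := by
  set P : ℕ := κ * Q ^ (b + 1) + 1 with hPdef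
  have hP : 0 < P := by omega
  have hPz : (P : ℤ) = (κ : ℤ) * (Q : ℤ) ^ (b + 1) + 1 := by rw [hPdef]; push_cast; ring
  have hQP : Q + 1 ≤ P := by
    have h1 : Q ≤ Q ^ (b + 1) := Nat.le_self_pow (by omega) Q
    have h2 : Q ^ (b + 1) ≤ κ * Q ^ (b + 1) := Nat.le_mul_of_pos_left _ hκ
    omega
  have hqp : q ≤ p := by
    by_contra hcon
    push Not at hcon
    have h1 : q * (Q + 1) ≤ q * P := Nat.mul_le_mul_left _ hQP
    have h2 : p * Q ≤ q * Q := Nat.mul_le_mul_right _ hcon.le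
    have h3 : q * (Q + 1) = q * Q + q := by ring
    omega
  have hp0 : 0 < p := by omega
  have key := pow_le_of_code' h (p := p) hq (b + 1) (ι := Fin κ × (Fin b → Fin P))
    (fun w k => ⟨side p P q hp0 (word Q w k), side_card hp0 hqp _⟩) ?_
  · rw [Fintype.card_prod, Fintype.card_fun, Fintype.card_fin, Fintype.card_fin,
      Fintype.card_fin] at key
    push_cast at key ⊢
    exact key
  · intro w w' hww
    simp only at hww
    choose δ hδ1 hδ2 using fun k => near (Q := Q) hp0 hP hp (hww k)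
    have h1 : (P : ℤ) ∣ ∑ i : Fin (b + 1), (Q : ℤ) ^ (i : ℕ) * (word Q w i - word Q w' i - δ i) :=
      Finset.dvd_sum fun i _ => Dvd.dvd.mul_left (hδ2 i) _
    have h2 : ∑ i : Fin (b + 1), (Q : ℤ) ^ (i : ℕ) * (word Q w i - word Q w' i - δ i) =
        ((w.1 : ℤ) - w'.1) * (Q : ℤ) ^ (b + 1) - ∑ i : Fin (b + 1), (Q : ℤ) ^ (i : ℕ) * δ i := by
      have h3 := word_sum Q w
      have h4 := word_sum Q w'
      rw [sub_mul, ← h3, ← h4, ← Finset.sum_sub_distrib, ← Finset.sum_sub_distrib]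
      exact Finset.sum_congr rfl fun i _ => by ring
    rw [h2] at h1
    have h3 := digits_bound hQ (b + 1) δ hδ1
    have h4 : |((w.1 : ℤ) - w'.1)| ≤ κ - 1 := by
      have := w.1.2
      have := w'.1.2
      rw [abs_le]
      constructor <;> omega
    have h5 : |((w.1 : ℤ) - w'.1) * (Q : ℤ) ^ (b + 1) - ∑ i : Fin (b + 1), (Q : ℤ) ^ (i : ℕ) * δ i| < P := by
      refine (abs_sub _ _).trans_lt ?_
      rw [abs_mul, abs_of_nonneg (by positivity : (0 : ℤ) ≤ (Q : ℤ) ^ (b + 1))]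
      have h6 : |((w.1 : ℤ) - w'.1)| * (Q : ℤ) ^ (b + 1) ≤ (κ - 1) * (Q : ℤ) ^ (b + 1) :=
        mul_le_mul_of_nonneg_right h4 (by positivity)
      linarith
    have h6 := Int.eq_zero_of_abs_lt_dvd h1 h5
    obtain ⟨h7, h8⟩ := digits_unique hQ (b + 1) δ hδ1 ((w.1 : ℤ) - w'.1) (by linarith)
    have h9 : w.1 = w'.1 := Fin.ext (by omega)
    refine Prod.ext h9 (funext fun i => Fin.ext ?_)
    have h10 := hδ2 i.succ
    rw [h8, sub_zero] at h10
    have h11 : word Q w i.succ - word Q w' i.succ = (w.2 i : ℤ) - w'.2 i := by simp [word]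
    rw [h11] at h10
    have h12 := Int.eq_zero_of_abs_lt_dvd h10 (by
      have := (w.2 i).2
      have := (w'.2 i).2
      rw [abs_lt]
      constructor <;> omega)
    omega

end Pool.Agent.H28.KN
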