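import Pool.Agent.H28.KN.B

set_option autoImplicit false

namespace Pool.Agent.H28.KN

open Finset

variable {φ : (V : Type) → [Fintype V] → SimpleGraph V → ℝ}

theorem real_ineq {A : ℝ} (hA : 1 ≤ A) {b : ℕ} (hb : 1 ≤ b) :
    (A + (1 - 2 / ((b : ℝ) + 1))) ^ (b + 1) ≤ A * (A + 1) ^ b := by
  have hb' : (1 : ℝ) ≤ b := by exact_mod_cast hb
  have hn : (0 : ℝ) < (b : ℝ) + 1 := by linarith
  set θ : ℝ := 1 - 2 / ((b : ℝ) + 1) with hθ
  have hθ0 : 0 ≤ θ := by
    have : 2 / ((b : ℝ) + 1) ≤ 1 := by rw [div_le_one hn]; linarith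
    linarith
  have hθ1 : θ ≤ 1 := by
    have : 0 ≤ 2 / ((b : ℝ) + 1) := by positivity
    linarith
  set X : ℝ := A + θ with hX
  have hX0 : 0 < X := by linarith
  set r : ℝ := (1 - θ) / X with hr
  have hr0 : 0 ≤ r := div_nonneg (by linarith) hX0.le
  have h1 : 1 + ((b + 1 : ℕ) : ℝ) * r ≤ (1 + r) ^ (b + 1) :=
    one_add_mul_le_pow (by linarith) (b + 1)
  have h2 : ((b + 1 : ℕ) : ℝ) * r = 2 / X := by
    rw [hr, hθ]
    push_cast
    field_simp
    ring
  have h3 : A + 1 = X * (1 + r) := by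
    rw [hr]
    field_simp
    rw [hX]; ring
  have h4 : X ^ (b + 1) * (1 + 2 / X) ≤ (A + 1) ^ (b + 1) := by
    rw [h3, mul_pow, ← h2]
    exact mul_le_mul_of_nonneg_left h1 (by positivity)
  have h5 : X ^ (b + 1) * (X + 2) ≤ X * (A + 1) ^ (b + 1) := by
    have e : X ^ (b + 1) * (X + 2) = X * (X ^ (b + 1) * (1 + 2 / X)) := by
      field_simp
    rw [e]
    exact mul_le_mul_of_nonneg_left h4 hX0.le
  have h6 : X * (A + 1) ≤ A * (X + 2) := by nlinarith
  have h7 : X * (A + 1) ^ (b + 1) ≤ A * (A + 1) ^ b * (X + 2) := by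
    have e1 : X * (A + 1) ^ (b + 1) = (X * (A + 1)) * (A + 1) ^ b := by ring
    have e2 : A * (A + 1) ^ b * (X + 2) = (A * (X + 2)) * (A + 1) ^ b := by ring
    rw [e1, e2]
    exact mul_le_mul_of_nonneg_right h6 (by positivity)
  exact le_of_mul_le_mul_right (h5.trans h7) (by linarith)

theorem piece (h : IsSpectralPoint φ) {p q Q b : ℕ} (hq : 1 ≤ q) (hQ : 1 ≤ Q)
    (hb : 1 ≤ b) (hp : q * (Q ^ (b + 1) + 1) ≤ p * Q) :
    (Q : ℝ) ^ b + (1 - 2 / ((b : ℝ) + 1)) / Q ≤ F φ p q := by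
  have h1 := code_bound h (κ := 1) (b := b) hq hQ le_rfl (by rw [one_mul]; exact hp)
  have hQ0 : (1 : ℝ) ≤ Q := by exact_mod_cast hQ
  have hF := F_nonneg h p q
  set A : ℝ := (Q : ℝ) ^ (b + 1) with hA
  have hA1 : 1 ≤ A := one_le_pow₀ hQ0
  have h2 := real_ineq hA1 hb
  by_contra hcon
  push Not at hcon
  set θ : ℝ := 1 - 2 / ((b : ℝ) + 1) with hθ
  have h3 : Q * F φ p q < A + θ := by
    have h4 : (Q : ℝ) * F φ p q < Q * ((Q : ℝ) ^ b + θ / Q) :=
      mul_lt_mul_of_pos_left hcon (by linarith)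
    have h5 : (Q : ℝ) * ((Q : ℝ) ^ b + θ / Q) = A + θ := by
      rw [hA, pow_succ]
      field_simp
    linarith
  have h4 : (Q * F φ p q) ^ (b + 1) < (A + θ) ^ (b + 1) :=
    pow_lt_pow_left₀ h3 (by positivity) (by omega)
  have h5 : A * (A + 1) ^ b ≤ (Q * F φ p q) ^ (b + 1) := by
    rw [mul_pow]
    push_cast at h1
    simp only [one_mul] at h1
    exact mul_le_mul_of_nonneg_left h1 (by positivity)
  linarith

theorem floor_le (h : IsSpectralPoint φ) {q : ℕ} (hq : 1 ≤ q) (m : ℕ) : (m : ℝ) ≤ F φ (m * q) q := by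
  have h1 := mul_le h hq m q
  have h2 := F_self h hq
  nlinarith [Nat.cast_nonneg (α := ℝ) m]

theorem lower (h : IsSpectralPoint φ) {k p q : ℕ} (hk : 1 ≤ k) (hq : 1 ≤ q)
    (hp : k ^ (2 * k) * q ≤ p) : (p : ℝ) / q - 4 / k ≤ F φ p q := by
  have hq0 : (0 : ℝ) < q := by exact_mod_cast hq
  have hk0 : (0 : ℝ) < k := by exact_mod_cast hk
  obtain ⟨m, c, hc, hpm⟩ : ∃ m c : ℕ, c < q ∧ p = m * q + c :=
    ⟨p / q, p % q, Nat.mod_lt _ hq, (Nat.div_add_mod' p q).symm⟩
  have hm : k ^ (2 * k) ≤ m := by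
    by_contra hcon
    push Not at hcon
    have h1 : (m + 1) * q ≤ k ^ (2 * k) * q := Nat.mul_le_mul_right _ hcon
    have h2 : (m + 1) * q = m * q + q := by ring
    omega
  have hpq : (p : ℝ) / q = m + c / q := by
    rw [hpm]; push_cast; field_simp
  rcases Nat.lt_or_ge k 2 with hk2 | hk2
  · have hk1 : k = 1 := by omega
    subst hk1
    have h1 := floor_le h hq m
    have h2 := F_mono h hq (show m * q ≤ p by omega)
    have h3 : (c : ℝ) / q ≤ 1 := by
      rw [div_le_one hq0]; exact_mod_cast hc.le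
    rw [hpq]
    push_cast
    linarith
  obtain ⟨b, rfl⟩ : ∃ b, k = b + 1 := ⟨k - 1, by omega⟩
  have hb : 1 ≤ b := by omega
  rcases Nat.lt_or_ge ((b + 1) ^ 2) q with hcase | hcase
  · -- large `q`
    set K := b + 1 with hK
    obtain ⟨c₁, h1, h2⟩ : ∃ c₁ : ℕ, q ≤ K * c₁ ∧ K * c₁ ≤ q + K - 1 := by
      refine ⟨(q + K - 1) / K, ?_, Nat.mul_div_le _ _⟩
      have := Nat.lt_mul_div_succ (q + K - 1) (show 0 < K by omega)
      have e : K * ((q + K - 1) / K + 1) = K * ((q + K - 1) / K) + K := by ring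
      omega
    have hc1 : 0 < c₁ := by
      rcases Nat.eq_zero_or_pos c₁ with h0 | h0
      · subst h0; omega
      · exact h0
    obtain ⟨g, d, hd, hg⟩ : ∃ g d : ℕ, d < c₁ ∧ c = g * c₁ + d :=
      ⟨c / c₁, c % c₁, Nat.mod_lt _ hc1, (Nat.div_add_mod' c c₁).symm⟩
    have hgK : g + 1 ≤ K := by
      by_contra hcon
      push Not at hcon
      have h3 : K * c₁ ≤ g * c₁ := Nat.mul_le_mul_right _ (by omega)
      omega
    have h3 := piece h (p := q * K ^ b + c₁) (q := q) (Q := K) (b := b) hq (by omega) hb (by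
      have e : (q * K ^ b + c₁) * K = q * K ^ (b + 1) + K * c₁ := by ring
      rw [e, mul_add, mul_one]
      omega)
    have hmg : g * K ^ b ≤ m := by
      have h4 : g * K ^ b ≤ K * K ^ b := Nat.mul_le_mul_right _ (by omega)
      have h5 : K * K ^ b = K ^ K := by rw [hK, pow_succ]; ring
      have h6 : K ^ K ≤ K ^ (2 * K) := Nat.pow_le_pow_right (by omega) (by omega)
      omega
    obtain ⟨w, hw⟩ := Nat.exists_eq_add_of_le hmg
    have hsplit : p = g * (q * K ^ b + c₁) + (w * q + d) := by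
      rw [hpm, hg, hw]; ring
    have h4 := add_le h hq (g * (q * K ^ b + c₁)) (w * q + d)
    have h5 := mul_le h hq g (q * K ^ b + c₁)
    have h6 := floor_le h hq w
    have h7 := F_mono h hq (show w * q ≤ w * q + d by omega)
    rw [← hsplit] at h4
    have hg0 : (0 : ℝ) ≤ g := Nat.cast_nonneg g
    have h8 : (g : ℝ) * ((K : ℝ) ^ b + (1 - 2 / ((b : ℝ) + 1)) / K) ≤
        g * F φ (q * K ^ b + c₁) q := mul_le_mul_of_nonneg_left h3 hg0
    have hmR : (m : ℝ) = g * (K : ℝ) ^ b + w := by rw [hw]; push_cast; ring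
    have hKb : (K : ℝ) = (b : ℝ) + 1 := by rw [hK]; push_cast; ring
    have h9 : (c : ℝ) / q ≤ (g + 2) / K := by
      rw [div_le_div_iff₀ hq0 hk0]
      have e1 : c * K ≤ (g + 2) * q := by
        have e2 : c ≤ (g + 1) * c₁ := by rw [hg]; nlinarith
        calc c * K ≤ (g + 1) * c₁ * K := Nat.mul_le_mul_right _ e2
          _ = (g + 1) * (K * c₁) := by ring
          _ ≤ (g + 1) * (q + b) := Nat.mul_le_mul_left _ (by omega)
          _ = (g + 1) * q + (g + 1) * b := by ring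
          _ ≤ (g + 1) * q + K * K := by
              have : (g + 1) * b ≤ K * K := Nat.mul_le_mul hgK (by omega)
              omega
          _ ≤ (g + 1) * q + q := by
              have : K * K ≤ q := by rw [← sq]; exact hcase.le
              omega
          _ = (g + 2) * q := by ring
      exact_mod_cast e1
    have h10 : (g : ℝ) * ((1 - 2 / ((b : ℝ) + 1)) / K) = g / K - 2 * (g / K) / K := by
      rw [← hKb]
      field_simp
    have h11 : (g : ℝ) / K ≤ 1 := by
      rw [div_le_one hk0]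
      exact_mod_cast (by omega : g ≤ K)
    have h12 : 2 * ((g : ℝ) / K) / K ≤ 2 / K := by
      gcongr
      linarith
    have h13 : ((g : ℝ) + 2) / K = g / K + 2 / K := by rw [add_div]
    have h14 : (4 : ℝ) / K = 2 / K + 2 / K := by ring
    rw [hpq, h14]
    rw [mul_add, h10] at h8
    linarith
  · -- small `q`
    have h3 := piece h (p := q ^ (b + 1) + 1) (q := q) (Q := q) (b := b) hq hq hb (by
      rw [mul_comm])
    have hmg : c * q ^ b ≤ m := by
      have h4 : c * q ^ b ≤ q * q ^ b := Nat.mul_le_mul_right _ hc.le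
      have h5 : q * q ^ b = q ^ (b + 1) := by rw [pow_succ]; ring
      have h6 : q ^ (b + 1) ≤ ((b + 1) ^ 2) ^ (b + 1) := Nat.pow_le_pow_left hcase _
      rw [← pow_mul] at h6
      omega
    obtain ⟨w, hw⟩ := Nat.exists_eq_add_of_le hmg
    have hsplit : p = c * (q ^ (b + 1) + 1) + w * q := by
      rw [hpm, hw]; ring
    have h4 := add_le h hq (c * (q ^ (b + 1) + 1)) (w * q)
    have h5 := mul_le h hq c (q ^ (b + 1) + 1)
    have h6 := floor_le h hq w
    rw [← hsplit] at h4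
    have hc0 : (0 : ℝ) ≤ c := Nat.cast_nonneg c
    have h8 : (c : ℝ) * ((q : ℝ) ^ b + (1 - 2 / ((b : ℝ) + 1)) / q) ≤
        c * F φ (q ^ (b + 1) + 1) q := mul_le_mul_of_nonneg_left h3 hc0
    have hmR : (m : ℝ) = c * (q : ℝ) ^ b + w := by rw [hw]; push_cast; ring
    have h10 : (c : ℝ) * ((1 - 2 / ((b : ℝ) + 1)) / q) = c / q - 2 * (c / q) / ((b : ℝ) + 1) := by
      field_simp
    have h11 : (c : ℝ) / q ≤ 1 := by
      rw [div_le_one hq0]
      exact_mod_cast hc.le
    have hb1 : (0 : ℝ) < (b : ℝ) + 1 := by positivity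
    have h12 : 2 * ((c : ℝ) / q) / ((b : ℝ) + 1) ≤ 4 / ((b : ℝ) + 1) := by
      gcongr
      linarith
    rw [hpq]
    push_cast
    rw [mul_add, h10] at h8
    linarith

end Pool.Agent.H28.KN
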