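import Pool.Agent.H28.KN.A

set_option autoImplicit false

namespace Pool.Agent.H28.KN

open Finset

variable {φ : (V : Type) → [Fintype V] → SimpleGraph V → ℝ}

/-- the box of a vector of sides -/
def bx {p q a : ℕ} (f : Fin a → KV p q) : Finset (Fin a → Fin p) :=
  Fintype.piFinset (fun k => (f k).1)

theorem bx_card {p q a : ℕ} (f : Fin a → KV p q) : (bx f).card = q ^ a := by
  unfold bx
  rw [Fintype.card_piFinset]
  simp only [(f _).2, Finset.prod_const, Finset.card_univ, Fintype.card_fin]

/-- one point hits the average number of boxes -/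
theorem hit_one {p q a : ℕ} (hp : 0 < p) (R : Finset (Fin a → KV p q)) :
    ∃ y : Fin a → Fin p, q ^ a * R.card ≤ p ^ a * (R.filter (fun f => y ∈ bx f)).card := by
  have hsum : ∑ y : Fin a → Fin p, (R.filter (fun f => y ∈ bx f)).card = q ^ a * R.card := by
    have h1 : ∀ y : Fin a → Fin p, (R.filter (fun f => y ∈ bx f)).card =
        ∑ f ∈ R, if y ∈ bx f then 1 else 0 := by
      intro y; rw [Finset.card_filter]
    simp only [h1]
    rw [Finset.sum_comm]
    have h2 : ∀ f ∈ R, (∑ y : Fin a → Fin p, if y ∈ bx f then 1 else 0) = q ^ a := by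
      intro f _
      rw [← Finset.card_filter, Finset.filter_mem_eq_inter, Finset.univ_inter, bx_card]
    rw [Finset.sum_congr rfl h2, Finset.sum_const, smul_eq_mul, mul_comm]
  by_contra hcon
  push Not at hcon
  have hne : (Finset.univ : Finset (Fin a → Fin p)).Nonempty :=
    ⟨fun _ => ⟨0, hp⟩, Finset.mem_univ _⟩
  have h3 := Finset.sum_lt_sum_of_nonempty hne (fun y _ => hcon y)
  rw [← Finset.mul_sum, hsum, Finset.sum_const, Finset.card_univ, Fintype.card_fun,
    Fintype.card_fin, Fintype.card_fin, smul_eq_mul] at h3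
  exact lt_irrefl _ h3

theorem greedy {p q a : ℕ} (hp : 0 < p) (T : ℕ) :
    ∃ g : Fin T → (Fin a → Fin p),
      (((Finset.univ : Finset (Fin a → KV p q)).filter (fun f => ∀ i, g i ∉ bx f)).card : ℝ) ≤
        (Fintype.card (Fin a → KV p q) : ℝ) * (1 - ((q : ℝ) / p) ^ a) ^ T := by
  have hp0 : (0 : ℝ) < p := by exact_mod_cast hp
  induction T with
  | zero =>
    refine ⟨fun i => i.elim0, ?_⟩
    rw [pow_zero, mul_one]
    exact_mod_cast Finset.card_le_univ _
  | succ T ih =>
    obtain ⟨g, hg⟩ := ih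
    set R := (Finset.univ : Finset (Fin a → KV p q)).filter (fun f => ∀ i, g i ∉ bx f) with hR
    obtain ⟨y, hy⟩ := hit_one hp R
    refine ⟨Fin.snoc g y, ?_⟩
    have h1 : (Finset.univ : Finset (Fin a → KV p q)).filter
        (fun f => ∀ i, (Fin.snoc g y : Fin (T + 1) → (Fin a → Fin p)) i ∉ bx f) =
        R.filter (fun f => y ∉ bx f) := by
      ext f
      simp only [hR, Finset.mem_filter, Finset.mem_univ, true_and]
      constructor
      · intro h
        refine ⟨fun i => ?_, ?_⟩
        · have := h i.castSucc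
          simpa using this
        · have := h (Fin.last T)
          simpa using this
      · rintro ⟨h2, h3⟩ i
        refine Fin.lastCases ?_ (fun j => ?_) i
        · simpa using h3
        · simpa using h2 j
    rw [h1]
    have h2 := Finset.card_filter_add_card_filter_not (s := R) (fun f => y ∈ bx f)
    have h3 : ((R.filter (fun f => y ∉ bx f)).card : ℝ) =
        R.card - (R.filter (fun f => y ∈ bx f)).card := by
      have : ((R.filter (fun f => y ∈ bx f)).card : ℝ) + (R.filter (fun f => y ∉ bx f)).card =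
        R.card := by exact_mod_cast h2
      linarith
    have h4 : ((q : ℝ) / p) ^ a * R.card ≤ (R.filter (fun f => y ∈ bx f)).card := by
      rw [div_pow, div_mul_eq_mul_div, div_le_iff₀ (by positivity)]
      have : ((q ^ a * R.card : ℕ) : ℝ) ≤ ((p ^ a * (R.filter (fun f => y ∈ bx f)).card : ℕ) : ℝ) := by
        exact_mod_cast hy
      push_cast at this
      linarith
    rw [h3]
    rcases le_or_gt (((q : ℝ) / p) ^ a) 1 with h5 | h5
    · have h6 : (1 - ((q : ℝ) / p) ^ a) * R.card ≤
          (1 - ((q : ℝ) / p) ^ a) * ((Fintype.card (Fin a → KV p q) : ℝ) *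
            (1 - ((q : ℝ) / p) ^ a) ^ T) := mul_le_mul_of_nonneg_left hg (by linarith)
      rw [pow_succ]
      linarith
    · -- impossible unless there are no boxes
      have h7 : (R.filter (fun f => y ∈ bx f)).card ≤ R.card := Finset.card_filter_le _ _
      have h8 : ((R.filter (fun f => y ∈ bx f)).card : ℝ) ≤ R.card := by exact_mod_cast h7
      have h9 : (R.card : ℝ) = 0 := by
        by_contra h0
        have h10 : (0 : ℝ) < R.card := lt_of_le_of_ne (Nat.cast_nonneg _) (Ne.symm h0)
        nlinarith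
      have hqp : p < q := by
        by_contra hcon
        push Not at hcon
        have : (q : ℝ) / p ≤ 1 := by
          rw [div_le_one hp0]; exact_mod_cast hcon
        have := pow_le_one₀ (n := a) (by positivity) this
        linarith
      have hcard : Fintype.card (Fin a → KV p q) = 0 := by
        rw [Fintype.card_eq_zero_iff]
        rcases Nat.eq_zero_or_pos a with h0 | h0
        · subst h0
          simp at h5
        · refine ⟨fun f => ?_⟩
          have h11 := (f ⟨0, h0⟩).2
          have h12 := Finset.card_le_univ (f ⟨0, h0⟩).1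
          rw [h11, Fintype.card_fin] at h12
          omega
      rw [hcard]
      have h13 : (0 : ℝ) ≤ (R.filter (fun f => y ∈ bx f)).card := Nat.cast_nonneg _
      rw [Nat.cast_zero, zero_mul]
      linarith

theorem pow_le (h : IsSpectralPoint φ) {p q : ℕ} (hq : 1 ≤ q) (hqp : q ≤ p) (a : ℕ) :
    F φ p q ^ a ≤ ((p : ℝ) / q) ^ a * (a * Real.log (Fintype.card (KV p q) + 1) + 2) := by
  have hp : 0 < p := by omega
  have hp0 : (0 : ℝ) < p := by exact_mod_cast hp
  have hq0 : (0 : ℝ) < q := by exact_mod_cast hq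
  set x : ℝ := ((q : ℝ) / p) ^ a with hx
  have hx0 : 0 < x := by positivity
  have hx1 : x ≤ 1 := by
    apply pow_le_one₀ (by positivity)
    rw [div_le_one hp0]; exact_mod_cast hqp
  set N₀ : ℝ := (Fintype.card (KV p q) : ℝ) with hN₀
  have hN₀0 : 0 ≤ N₀ := Nat.cast_nonneg _
  set L : ℝ := a * Real.log (N₀ + 1) with hL
  have hlog : 0 ≤ Real.log (N₀ + 1) := Real.log_nonneg (by linarith)
  have hL0 : 0 ≤ L := by positivity
  set T : ℕ := ⌊L / x⌋₊ + 1 with hT
  have hT1 : L / x < T := by rw [hT]; push_cast; exact Nat.lt_floor_add_one _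
  have hT2 : (T : ℝ) ≤ L / x + 1 := by
    rw [hT]; push_cast
    linarith [Nat.floor_le (show 0 ≤ L / x by positivity)]
  obtain ⟨g, hg⟩ := greedy (q := q) (a := a) hp T
  have hcard : (Fintype.card (Fin a → KV p q) : ℝ) ≤ (N₀ + 1) ^ a := by
    rw [Fintype.card_fun, Fintype.card_fin]
    push_cast
    exact pow_le_pow_left₀ hN₀0 (by linarith) a
  have hexp : (1 - x) ^ T ≤ Real.exp (-(x * T)) := by
    have h1 : 1 - x ≤ Real.exp (-x) := by linarith [Real.add_one_le_exp (-x)]
    calc (1 - x) ^ T ≤ Real.exp (-x) ^ T := pow_le_pow_left₀ (by linarith) h1 T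
      _ = Real.exp (-(x * T)) := by rw [← Real.exp_nat_mul]; ring_nf
  have hlt : (Fintype.card (Fin a → KV p q) : ℝ) * (1 - x) ^ T < 1 := by
    have h1 : L < x * T := by
      rw [div_lt_iff₀ hx0] at hT1
      linarith
    have h2 : (N₀ + 1) ^ a = Real.exp L := by
      rw [hL, Real.exp_nat_mul, Real.exp_log (by linarith)]
    calc (Fintype.card (Fin a → KV p q) : ℝ) * (1 - x) ^ T
        ≤ (N₀ + 1) ^ a * Real.exp (-(x * T)) :=
          mul_le_mul hcard hexp (pow_nonneg (by linarith) _) (by positivity)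
      _ = Real.exp (L - x * T) := by rw [h2, ← Real.exp_add]; ring_nf
      _ < 1 := by rw [Real.exp_lt_one_iff]; linarith
  have hempty : ((Finset.univ : Finset (Fin a → KV p q)).filter (fun f => ∀ i, g i ∉ bx f)).card = 0 := by
    have h1 := lt_of_le_of_lt hg hlt
    have h2 : ((Finset.univ : Finset (Fin a → KV p q)).filter (fun f => ∀ i, g i ∉ bx f)).card < 1 := by
      exact_mod_cast h1
    omega
  rw [Finset.card_eq_zero] at hempty
  have h1 := pow_le_of_hit h hq a T g (fun f => by
    have h2 : f ∉ (Finset.univ : Finset (Fin a → KV p q)).filter (fun f => ∀ i, g i ∉ bx f) := by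
      rw [hempty]; exact Finset.notMem_empty _
    simp only [Finset.mem_filter, Finset.mem_univ, true_and, not_forall, not_not] at h2
    obtain ⟨i, hi⟩ := h2
    refine ⟨i, fun k => ?_⟩
    unfold bx at hi
    exact (Fintype.mem_piFinset.1 hi) k)
  have h2 : ((p : ℝ) / q) ^ a = 1 / x := by
    rw [hx, div_pow, div_pow, one_div_div]
  have h3 : (1 : ℝ) ≤ 1 / x := by rw [le_div_iff₀ hx0]; linarith
  rw [h2]
  have h4 : L / x = 1 / x * L := by ring
  nlinarith

theorem upper (h : IsSpectralPoint φ) {p q : ℕ} (hq : 1 ≤ q) (hqp : q ≤ p) :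
    F φ p q ≤ (p : ℝ) / q := by
  by_contra hcon
  push Not at hcon
  have hp0 : (0 : ℝ) < p := by exact_mod_cast (by omega : 0 < p)
  have hq0 : (0 : ℝ) < q := by exact_mod_cast hq
  set r : ℝ := (p : ℝ) / q with hr
  have hr0 : 0 < r := by positivity
  set s : ℝ := F φ p q / r with hs
  have hs1 : 1 < s := by rw [hs, lt_div_iff₀ hr0]; linarith
  set L : ℝ := Real.log (Fintype.card (KV p q) + 1) with hL
  have hL0 : 0 ≤ L := Real.log_nonneg (by
    have : (0 : ℝ) ≤ Fintype.card (KV p q) := Nat.cast_nonneg _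
    linarith)
  have hpow : ∀ a : ℕ, s ^ a ≤ a * L + 2 := by
    intro a
    have h1 := pow_le h hq hqp a
    rw [hs, div_pow, div_le_iff₀ (by positivity)]
    linarith [mul_comm (r ^ a) ((a : ℝ) * L + 2)]
  set δ : ℝ := s - 1 with hδ
  have hδ0 : 0 < δ := by linarith
  obtain ⟨n, hn⟩ := exists_nat_gt ((2 * L + 2) / δ ^ 2)
  have hn0 : (0 : ℝ) < n := lt_of_le_of_lt (by positivity) hn
  have hn1 : (1 : ℝ) ≤ n := by
    have : 0 < n := by exact_mod_cast hn0
    exact_mod_cast this
  rw [div_lt_iff₀ (by positivity)] at hn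
  have h1 := hpow (2 * n)
  have h2 : 1 + (n : ℝ) * δ ≤ s ^ n := by
    have := one_add_mul_le_pow (a := δ) (by linarith) n
    have e : 1 + δ = s := by rw [hδ]; ring
    rwa [e] at this
  have h3 : (1 + (n : ℝ) * δ) ^ 2 ≤ s ^ (2 * n) := by
    rw [mul_comm 2 n, pow_mul]
    exact pow_le_pow_left₀ (by positivity) h2 2
  push_cast at h1
  have h4 : (n : ℝ) * (2 * L + 2) < n * (n * δ ^ 2) := mul_lt_mul_of_pos_left hn hn0
  nlinarith [mul_nonneg hn0.le hδ0.le]

end Pool.Agent.H28.KN
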